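import Pool.Agent.K3h78.PN.Stm

/-!
# A finitely generated domain over `ℚ` as a family over a polynomial ring (brick MODEL)
-/

set_option autoImplicit false

namespace Pool.Agent.K3h67.PN

open Polynomial
open Pool.Agent.K3h78.PN (ev S_MODEL)

theorem integerNormalization_spec' {R K : Type} [CommRing R] [IsDomain R] [Field K] [Algebra R K]
    [IsFractionRing R K] (p : K[X]) : ∃ b : nonZeroDivisors R,
      (IsLocalization.integerNormalization (nonZeroDivisors R) p).map (algebraMap R K) =
        (b : R) • p := by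
  obtain ⟨b, hb, h⟩ := IsLocalization.integerNormalization_spec (nonZeroDivisors R) p
  exact ⟨⟨b, hb⟩, h⟩

theorem core {R K Ω : Type} [CommRing R] [IsDomain R] [Field K] [CharZero K] [Algebra R K]
    [IsFractionRing R K] [Field Ω] [Algebra K Ω] [Algebra R Ω] [IsScalarTower R K Ω]
    (g : Finset Ω) (hg : ∀ a ∈ g, IsIntegral R a) :
    ∃ (Q : R[X]) (D : R), D ≠ 0 ∧
      (∀ (M : Type) [Field M] [IsAlgClosed M] (φ : R →+* M), φ D ≠ 0 →
        ∃ v : M, eval₂ φ v Q = 0 ∧ eval₂ φ v (derivative Q) ≠ 0) ∧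
      ∀ (M : Type) [Field M] (φ : R →+* M), Function.Injective φ → ∀ y : M, eval₂ φ y Q = 0 →
        ∃ Ψ : IntermediateField.adjoin K (g : Set Ω) →+* M,
          ∀ r : R, Ψ (algebraMap K _ (algebraMap R K r)) = φ r := by
  classical
  have hfd : FiniteDimensional K (IntermediateField.adjoin K (g : Set Ω)) :=
    IntermediateField.finiteDimensional_adjoin fun a ha => (hg a ha).tower_top
  let pb := Field.powerBasisOfFiniteOfSeparable K (IntermediateField.adjoin K (g : Set Ω))
  have hint : IsIntegral K pb.gen := Algebra.IsIntegral.isIntegral _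
  set p := minpoly K pb.gen with hp
  have hp0 : p.Monic := minpoly.monic hint
  have hpd : 0 < p.natDegree := minpoly.natDegree_pos hint
  have hsep : p.Separable := (minpoly.irreducible hint).separable
  obtain ⟨a, c, hac⟩ := hsep
  obtain ⟨b, hb⟩ := integerNormalization_spec' (R := R) p
  obtain ⟨b₁, hb₁⟩ := integerNormalization_spec' (R := R) a
  obtain ⟨b₂, hb₂⟩ := integerNormalization_spec' (R := R) c
  set Q := IsLocalization.integerNormalization (nonZeroDivisors R) p with hQ
  set P₁ := IsLocalization.integerNormalization (nonZeroDivisors R) a with hP₁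
  set P₂ := IsLocalization.integerNormalization (nonZeroDivisors R) c with hP₂
  have hinj : Function.Injective (algebraMap R K) := IsFractionRing.injective R K
  have hsm : ∀ (r : R) (f : K[X]), r • f = C (algebraMap R K r) * f := by
    intro r f
    rw [← smul_eq_C_mul, algebraMap_smul]
  rw [hsm] at hb hb₁ hb₂
  have hb0 : (b : R) ≠ 0 := nonZeroDivisors.coe_ne_zero b
  have hb₁0 : (b₁ : R) ≠ 0 := nonZeroDivisors.coe_ne_zero b₁
  have hb₂0 : (b₂ : R) ≠ 0 := nonZeroDivisors.coe_ne_zero b₂
  have hQ0 : Q ≠ 0 := by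
    intro h
    rw [h, Polynomial.map_zero] at hb
    rcases mul_eq_zero.1 hb.symm with h1 | h1
    · rw [C_eq_zero, map_eq_zero_iff _ hinj] at h1
      exact hb0 h1
    · exact hp0.ne_zero h1
  have hbez : (P₁ * C (b₂ : R)) * Q + (P₂ * C (b₁ : R)) * derivative Q =
      C ((b₁ : R) * b₂ * b) := by
    apply Polynomial.map_injective _ hinj
    rw [Polynomial.map_add, Polynomial.map_mul, Polynomial.map_mul, Polynomial.map_mul,
      Polynomial.map_mul, map_C, map_C, map_C, ← derivative_map, hb, hb₁, hb₂, derivative_C_mul]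
    simp only [map_mul]
    linear_combination (C (algebraMap R K b) * C (algebraMap R K b₁) *
      C (algebraMap R K b₂)) * hac
  refine ⟨Q, (b₁ : R) * b₂ * b * Q.leadingCoeff,
    mul_ne_zero (mul_ne_zero (mul_ne_zero hb₁0 hb₂0) hb0) (leadingCoeff_ne_zero.2 hQ0), ?_, ?_⟩
  · intro M _ _ φ hφ
    rw [map_mul] at hφ
    have h1 : φ ((b₁ : R) * b₂ * b) ≠ 0 := left_ne_zero_of_mul hφ
    have h2 : φ Q.leadingCoeff ≠ 0 := right_ne_zero_of_mul hφ
    have hdeg : (Q.map φ).natDegree = p.natDegree := by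
      rw [natDegree_map_of_leadingCoeff_ne_zero φ h2, ← natDegree_map_eq_of_injective hinj Q, hb,
        natDegree_C_mul]
      rw [Ne, map_eq_zero_iff _ hinj]
      exact hb0
    obtain ⟨v, hv⟩ := IsAlgClosed.exists_root (Q.map φ) (by
      intro h
      have := natDegree_eq_of_degree_eq_some (n := 0) h
      omega)
    rw [IsRoot.def, eval_map] at hv
    refine ⟨v, hv, fun h => h1 ?_⟩
    have h3 := congrArg (eval₂ φ v) hbez
    simp only [eval₂_add, eval₂_mul, hv, h, mul_zero, add_zero, eval₂_C] at h3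
    exact h3.symm
  · intro M _ φ hφ y hy
    let _ : Algebra K M := (IsFractionRing.lift hφ : K →+* M).toAlgebra
    have hφK : ∀ r : R, algebraMap K M (algebraMap R K r) = φ r := fun r =>
      IsFractionRing.lift_algebraMap hφ r
    have hroot : aeval y p = 0 := by
      have h1 : eval₂ (algebraMap K M) y (Q.map (algebraMap R K)) = 0 := by
        rw [eval₂_map]
        have h2 : (algebraMap K M).comp (algebraMap R K) = φ := RingHom.ext hφK
        rw [h2]
        exact hy
      rw [hb, eval₂_mul, eval₂_C, hφK] at h1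
      rcases mul_eq_zero.1 h1 with h2 | h2
      · exact absurd ((map_eq_zero_iff _ hφ).1 h2) hb0
      · exact h2
    refine ⟨(pb.lift y hroot : _ →ₐ[K] M), fun r => ?_⟩
    rw [RingHom.coe_coe, AlgHom.commutes, hφK]

theorem t_MODEL : S_MODEL := by
  intro Ω _ _ A hA
  classical
  obtain ⟨g, hg⟩ := hA
  have hft : Algebra.FiniteType ℚ A := A.fg_iff_finiteType.1 ⟨g, hg⟩
  obtain ⟨n, ν, hν, hfin⟩ := exists_finite_inj_algHom_of_fg ℚ A
  let ι : MvPolynomial (Fin n) ℚ →+* Ω :=
    (A.val : A →+* Ω).comp (ν : MvPolynomial (Fin n) ℚ →+* A)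
  have hι : Function.Injective ι := Subtype.val_injective.comp hν
  let _ : Algebra (MvPolynomial (Fin n) ℚ) Ω := ι.toAlgebra
  have hf : FaithfulSMul (MvPolynomial (Fin n) ℚ) Ω :=
    (faithfulSMul_iff_algebraMap_injective _ Ω).2 hι
  let _ : Algebra (FractionRing (MvPolynomial (Fin n) ℚ)) Ω :=
    FractionRing.liftAlgebra (MvPolynomial (Fin n) ℚ) Ω
  have hst : IsScalarTower (MvPolynomial (Fin n) ℚ) (FractionRing (MvPolynomial (Fin n) ℚ)) Ω :=
    FractionRing.isScalarTower_liftAlgebra _ _
  have hintA : ∀ a : A, ∃ P : (MvPolynomial (Fin n) ℚ)[X], P.Monic ∧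
      eval₂ (ν : MvPolynomial (Fin n) ℚ →+* A) a P = 0 := fun a => hfin.to_isIntegral a
  have hgA : ∀ a ∈ g, a ∈ A := by
    intro a ha
    rw [← hg]
    exact Algebra.subset_adjoin ha
  have hint : ∀ a ∈ g, IsIntegral (MvPolynomial (Fin n) ℚ) a := by
    intro a ha
    obtain ⟨P, hP, h⟩ := hintA ⟨a, hgA a ha⟩
    refine ⟨P, hP, ?_⟩
    have h1 := congrArg (A.val : A →+* Ω) h
    rw [map_zero, hom_eval₂] at h1
    exact h1
  obtain ⟨Q, D, hD, h1, h2⟩ := core (R := MvPolynomial (Fin n) ℚ)
    (K := FractionRing (MvPolynomial (Fin n) ℚ)) g hint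
  refine ⟨Fin n, inferInstance, Q, D, hD, ?_, ?_⟩
  · intro M _ _ _ u hu
    exact h1 M (MvPolynomial.eval₂Hom (Rat.castHom M) u) hu
  · intro M _ _ ξ y hξ hy
    have hcast : (Rat.castHom M) = algebraMap ℚ M := Subsingleton.elim _ _
    have hφ : ∀ P : MvPolynomial (Fin n) ℚ, MvPolynomial.eval₂Hom (Rat.castHom M) ξ P = MvPolynomial.aeval ξ P := by
      intro P
      rw [hcast]
      rfl
    have hφi : Function.Injective (MvPolynomial.eval₂Hom (Rat.castHom M) ξ) := by
      intro P P' h
      rw [hφ, hφ] at h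
      exact hξ h
    obtain ⟨Ψ, hΨ⟩ := h2 M (MvPolynomial.eval₂Hom (Rat.castHom M) ξ) hφi y hy
    have hAF : ∀ a ∈ A, a ∈ IntermediateField.adjoin (FractionRing (MvPolynomial (Fin n) ℚ))
        (g : Set Ω) := by
      intro a ha
      rw [← hg] at ha
      induction ha using Algebra.adjoin_induction with
      | mem x hx => exact IntermediateField.subset_adjoin _ _ hx
      | algebraMap r =>
        rw [eq_ratCast]
        exact SubfieldClass.ratCast_mem _ _
      | add x y _ _ hx hy => exact add_mem hx hy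
      | mul x y _ _ hx hy => exact mul_mem hx hy
    let j : A →+* IntermediateField.adjoin (FractionRing (MvPolynomial (Fin n) ℚ))
        (g : Set Ω) := (A.val : A →+* Ω).codRestrict _ fun a => hAF a a.2
    have hj : Function.Injective j := by
      intro a a' h
      apply Subtype.ext
      have h' : ((j a : _) : Ω) = ((j a' : _) : Ω) := by rw [h]
      exact h'
    refine ⟨Ψ.comp j, Ψ.injective.comp hj, fun b => ?_⟩
    obtain ⟨P, hP, hb⟩ := hintA b
    have hjν : ∀ r, (Ψ.comp j) (ν r) = MvPolynomial.eval₂Hom (Rat.castHom M) ξ r := by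
      intro r
      rw [← hΨ]
      change Ψ (j (ν r)) = _
      congr 1
      apply Subtype.ext
      change ι r = algebraMap (FractionRing (MvPolynomial (Fin n) ℚ)) Ω (algebraMap _ _ r)
      rw [← IsScalarTower.algebraMap_apply]
      rfl
    have hmem : ∀ r : MvPolynomial (Fin n) ℚ, MvPolynomial.eval₂Hom (Rat.castHom M) ξ r ∈
        Algebra.adjoin ℚ (Set.range ξ) := by
      intro r
      rw [hφ, Algebra.adjoin_range_eq_range_aeval]
      exact ⟨r, rfl⟩
    let φ' : MvPolynomial (Fin n) ℚ →+* Algebra.adjoin ℚ (Set.range ξ) :=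
      (MvPolynomial.eval₂Hom (Rat.castHom M) ξ).codRestrict _ hmem
    refine ⟨P.map φ', (hP.map φ').ne_zero, ?_⟩
    rw [aeval_def, eval₂_map]
    have h3 := congrArg (Ψ.comp j) hb
    rw [map_zero, hom_eval₂] at h3
    have h4 : (Ψ.comp j).comp (ν : MvPolynomial (Fin n) ℚ →+* A) =
        (algebraMap (Algebra.adjoin ℚ (Set.range ξ)) M).comp φ' := RingHom.ext hjν
    rw [← h4]
    exact h3

end Pool.Agent.K3h67.PN
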